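import Pool.Agent.H73.BrCls
import Pool.Agent.H38.BR.Hit

/-!
# Few classes when only joins of maximal join-irreducibles have bounded breadth

`Mx` is a finite set of elements of a finite lattice `L` such that every subset `A` of `Mx` has a
subset of at most `b` elements with the same join.  For a set `Y` there is a map `g` with
`m ≤ g m` and `g m ≤ y` for all `y ∈ Y` above `m` (`m ∈ Mx`) such that the sets
`{m ∈ Mx : g m ≤ x}` (`x ∈ L`) are at most `((|Y| + 1) ^ b + 1) ^ b` in number.
-/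

namespace Pool.Agent.H62.TwoLev

open Classical in
/-- An intersection of sets `{m ∈ Mx : m ≤ y}` is the intersection of at most `b` of them. -/
theorem few_bounds {L : Type*} [Lattice L] [BoundedOrder L] (b : ℕ) (Mx : Finset L)
    (h : ∀ A ⊆ Mx, ∃ B ⊆ A, B.card ≤ b ∧ B.sup id = A.sup id) (W : Finset L) :
    ∃ W' ⊆ W, W'.card ≤ b ∧ ∀ m ∈ Mx, (∀ y ∈ W', m ≤ y) → ∀ y ∈ W, m ≤ y := by
  obtain ⟨P, hP⟩ : ∃ P : Finset L → Prop,
      ∀ T, P T ↔ ∀ m ∈ Mx, (∀ y ∈ T, m ≤ y) → ∀ y ∈ W, m ≤ y := ⟨_, fun _ => Iff.rfl⟩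
  have hne : (W.powerset.filter P).Nonempty :=
    ⟨W, by
      rw [Finset.mem_filter, Finset.mem_powerset]
      exact ⟨Finset.Subset.refl _, (hP W).2 (fun m _ hmy => hmy)⟩⟩
  obtain ⟨T, hT, hmin⟩ := Finset.exists_min_image _ Finset.card hne
  rw [Finset.mem_filter, Finset.mem_powerset, hP] at hT
  refine ⟨T, hT.1, ?_, hT.2⟩
  by_contra hcard
  push Not at hcard
  have hex : ∀ t ∈ T, ∃ m ∈ Mx, (∀ y ∈ T.erase t, m ≤ y) ∧ ¬ m ≤ t := by
    intro t ht
    by_contra hcon
    push Not at hcon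
    have h2 := hmin (T.erase t) (by
      rw [Finset.mem_filter, Finset.mem_powerset, hP]
      refine ⟨(Finset.erase_subset _ _).trans hT.1, ?_⟩
      intro m hm hmy
      refine hT.2 m hm ?_
      intro y hy
      by_cases hyt : y = t
      · rw [hyt]; exact hcon m hm hmy
      · exact hmy y (Finset.mem_erase.2 ⟨hyt, hy⟩))
    exact absurd (Finset.card_erase_lt_of_mem ht) (not_lt.2 h2)
  choose! s hsM hsy hst using hex
  have hs2 : ∀ t ∈ T, ∀ t' ∈ T, t ≠ t' → s t ≤ t' := by
    intro t ht t' ht' hne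
    exact hsy t ht t' (Finset.mem_erase.2 ⟨hne.symm, ht'⟩)
  have hinj : Set.InjOn s (T : Set L) := by
    intro t ht t' ht' heq
    by_contra hne
    exact hst t ht (heq ▸ hs2 t' ht' t ht (Ne.symm hne))
  obtain ⟨T', hT'1, hT'2, hT'3⟩ := h (T.image s) (by
    intro m hm
    obtain ⟨t, ht, rfl⟩ := Finset.mem_image.1 hm
    exact hsM t ht)
  have hcard2 : T'.card < (T.image s).card := by
    rw [Finset.card_image_of_injOn hinj]
    exact lt_of_le_of_lt hT'2 hcard
  obtain ⟨y, hy, hyT'⟩ := Finset.exists_mem_notMem_of_card_lt_card hcard2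
  rw [Finset.mem_image] at hy
  obtain ⟨t, ht, rfl⟩ := hy
  refine hst t ht ?_
  calc s t ≤ (T.image s).sup id := Finset.le_sup (f := id) (Finset.mem_image_of_mem s ht)
    _ = T'.sup id := hT'3.symm
    _ ≤ t := by
      refine Finset.sup_le fun y hy => ?_
      have := hT'1 hy
      rw [Finset.mem_image] at this
      obtain ⟨t', ht', rfl⟩ := this
      refine hs2 t' ht' t ht ?_
      rintro rfl
      exact hyT' hy

open Classical in
/-- Few classes, in the form needed for the weights. -/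
theorem classes {L : Type*} [Lattice L] [BoundedOrder L] [Fintype L] (b : ℕ) (Mx : Finset L)
    (h : ∀ A ⊆ Mx, ∃ B ⊆ A, B.card ≤ b ∧ B.sup id = A.sup id) (Y : Finset L) :
    ∃ (g cls : L → L),
      (∀ m : L, ∃ A ⊆ Mx, g m = A.sup id) ∧
      (∀ m ∈ Mx, m ≤ g m) ∧
      (∀ m y : L, y ∈ Y → m ≤ y → g m ≤ y) ∧
      (∀ x x', cls x = cls x' → ∀ m : L, (g m ≤ x ↔ g m ≤ x')) ∧
      ((Finset.univ : Finset L).image cls).card ≤ ((Y.card + 1) ^ b + 1) ^ b := by
  set g : L → L := fun m => (Mx.filter (fun m' => ∀ y ∈ Y, m ≤ y → m' ≤ y)).sup id with hg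
  set val : (Fin b → L) → L := fun f => (Mx.filter (fun m' => ∀ i, m' ≤ f i)).sup id with hval
  set G : Finset L := (Fintype.piFinset (fun _ : Fin b => insert ⊤ Y)).image val with hG
  have hgG : ∀ m : L, g m ∈ G := by
    intro m
    obtain ⟨T, hTS, hTb, hT⟩ := few_bounds b Mx h (Y.filter (fun y => m ≤ y))
    rw [hG, Finset.mem_image]
    obtain ⟨f, hf⟩ : ∃ f : Fin b → L, ∀ i, f i =
        if h : i.val < T.card then ((T.equivFin.symm ⟨i.val, h⟩ : T) : L) else ⊤ :=
      ⟨_, fun _ => rfl⟩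
    refine ⟨f, ?_, ?_⟩
    · rw [Fintype.mem_piFinset]
      intro i
      rw [hf]
      by_cases h : i.val < T.card
      · rw [dif_pos h]
        exact Finset.mem_insert_of_mem
          (Finset.filter_subset _ _ (hTS (T.equivFin.symm ⟨i.val, h⟩).2))
      · rw [dif_neg h]
        exact Finset.mem_insert_self _ _
    · have hfe : Mx.filter (fun m' => ∀ i, m' ≤ f i) =
          Mx.filter (fun m' => ∀ y ∈ Y, m ≤ y → m' ≤ y) := by
        ext m'
        simp only [Finset.mem_filter]
        refine and_congr_right fun hm' => ?_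
        constructor
        · intro hi y hy hmy
          refine hT m' hm' ?_ y (Finset.mem_filter.2 ⟨hy, hmy⟩)
          intro t ht
          have hlt : (T.equivFin ⟨t, ht⟩).val < b := lt_of_lt_of_le (T.equivFin ⟨t, ht⟩).2 hTb
          have h1 := hi ⟨(T.equivFin ⟨t, ht⟩).val, hlt⟩
          rw [hf, dif_pos (T.equivFin ⟨t, ht⟩).2] at h1
          simpa using h1
        · intro hy i
          rw [hf]
          by_cases h : i.val < T.card
          · rw [dif_pos h]
            have h1 := hTS (T.equivFin.symm ⟨i.val, h⟩).2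
            rw [Finset.mem_filter] at h1
            exact hy _ h1.1 h1.2
          · rw [dif_neg h]
            exact le_top
      show (Mx.filter (fun m' => ∀ i, m' ≤ f i)).sup id = _
      rw [hfe]
  have hGcard : G.card ≤ (Y.card + 1) ^ b := H73.BrCls.card_aux b Y ⊤ _
  have hGM : ∀ u ∈ G, ∃ A ⊆ Mx, u = A.sup id := by
    intro u hu
    obtain ⟨f, _, rfl⟩ := Finset.mem_image.1 hu
    exact ⟨_, Finset.filter_subset _ _, rfl⟩
  refine ⟨g, fun x => (G.filter (fun u => u ≤ x)).sup id,
    fun m => ⟨_, Finset.filter_subset _ _, rfl⟩, ?_, ?_, ?_, ?_⟩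
  · intro m hm
    exact Finset.le_sup (f := id) (Finset.mem_filter.2 ⟨hm, fun y _ hmy => hmy⟩)
  · intro m y hy hmy
    refine Finset.sup_le ?_
    intro m' hm'
    exact (Finset.mem_filter.1 hm').2 y hy hmy
  · have key : ∀ x u : L, u ∈ G → (u ≤ x ↔ u ≤ (G.filter (fun u => u ≤ x)).sup id) := by
      intro x u hu
      constructor
      · intro hux
        exact Finset.le_sup (f := id) (Finset.mem_filter.2 ⟨hu, hux⟩)
      · intro hux
        refine hux.trans (Finset.sup_le ?_)
        intro u' hu'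
        exact (Finset.mem_filter.1 hu').2
    intro x x' hxx m
    have hxx' : (G.filter (fun u => u ≤ x)).sup id = (G.filter (fun u => u ≤ x')).sup id := hxx
    rw [key x _ (hgG m), key x' _ (hgG m), hxx']
  · have hsub : (Finset.univ : Finset L).image (fun x => (G.filter (fun u => u ≤ x)).sup id) ⊆
        (Fintype.piFinset (fun _ : Fin b => insert ⊥ G)).image (fun f => Finset.univ.sup f) := by
      intro s hs
      obtain ⟨x, _, rfl⟩ := Finset.mem_image.1 hs
      show (G.filter (fun u => u ≤ x)).sup id ∈ _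
      set A : Finset L := Mx.filter (fun m' => ∃ u ∈ G, u ≤ x ∧ m' ≤ u) with hA
      obtain ⟨B, hBA, hBb, hB⟩ := h A (Finset.filter_subset _ _)
      have hAJ : A.sup id = (G.filter (fun u => u ≤ x)).sup id := by
        apply le_antisymm
        · refine Finset.sup_le ?_
          intro m' hm'
          obtain ⟨_, u, hu, hux, hmu⟩ := Finset.mem_filter.1 hm'
          exact hmu.trans (Finset.le_sup (f := id) (Finset.mem_filter.2 ⟨hu, hux⟩))
        · refine Finset.sup_le ?_
          intro u hu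
          rw [Finset.mem_filter] at hu
          obtain ⟨C, hC, rfl⟩ := hGM u hu.1
          refine Finset.sup_mono ?_
          intro m' hm'
          exact Finset.mem_filter.2 ⟨hC hm', _, hu.1, hu.2, Finset.le_sup (f := id) hm'⟩
      have hex : ∀ m' ∈ B, ∃ u ∈ G, u ≤ x ∧ m' ≤ u := fun m' hm' =>
        (Finset.mem_filter.1 (hBA hm')).2
      choose! γ hγG hγx hγm using hex
      have hT1 : B.image γ ⊆ G.filter (fun u => u ≤ x) := by
        intro u hu
        obtain ⟨m', hm', rfl⟩ := Finset.mem_image.1 hu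
        exact Finset.mem_filter.2 ⟨hγG m' hm', hγx m' hm'⟩
      have hT2 : (B.image γ).sup id = (G.filter (fun u => u ≤ x)).sup id := by
        apply le_antisymm (Finset.sup_mono hT1)
        rw [← hAJ, ← hB]
        refine Finset.sup_le ?_
        intro m' hm'
        exact (hγm m' hm').trans (Finset.le_sup (f := id) (Finset.mem_image_of_mem γ hm'))
      rw [← hT2]
      exact H73.BrCls.sup_mem b G (B.image γ) (hT1.trans (Finset.filter_subset _ _))
        (Finset.card_image_le.trans hBb)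
    refine (Finset.card_le_card hsub).trans ((H73.BrCls.card_aux b G ⊥ _).trans ?_)
    exact Nat.pow_le_pow_left (Nat.succ_le_succ hGcard) b

/-- Bounded breadth passes to a set of joins of elements of `M`. -/
theorem breadth_joins {L : Type*} [Lattice L] [BoundedOrder L] (b : ℕ) (M M1 : Finset L)
    (h : ∀ A ⊆ M, ∃ B ⊆ A, B.card ≤ b ∧ B.sup id = A.sup id)
    (h1 : ∀ u ∈ M1, ∃ A ⊆ M, u = A.sup id) :
    ∀ A ⊆ M1, ∃ B ⊆ A, B.card ≤ b ∧ B.sup id = A.sup id := by
  classical
  intro A hA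
  obtain ⟨B, hBA, hBb, hB⟩ := h (M.filter (fun m => ∃ u ∈ A, m ≤ u)) (Finset.filter_subset _ _)
  have hAJ : (M.filter (fun m => ∃ u ∈ A, m ≤ u)).sup id = A.sup id := by
    apply le_antisymm
    · refine Finset.sup_le ?_
      intro m' hm'
      obtain ⟨_, u, hu, hmu⟩ := Finset.mem_filter.1 hm'
      exact hmu.trans (Finset.le_sup (f := id) hu)
    · refine Finset.sup_le ?_
      intro u hu
      obtain ⟨C, hC, rfl⟩ := h1 u (hA hu)
      refine Finset.sup_mono ?_
      intro m' hm'
      exact Finset.mem_filter.2 ⟨hC hm', _, hu, Finset.le_sup (f := id) hm'⟩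
  have hex : ∀ m' ∈ B, ∃ u ∈ A, m' ≤ u := fun m' hm' => (Finset.mem_filter.1 (hBA hm')).2
  choose! γ hγA hγm using hex
  have hT1 : B.image γ ⊆ A := by
    intro u hu
    obtain ⟨m', hm', rfl⟩ := Finset.mem_image.1 hu
    exact hγA m' hm'
  refine ⟨B.image γ, hT1, Finset.card_image_le.trans hBb, ?_⟩
  apply le_antisymm (Finset.sup_mono hT1)
  rw [← hAJ, ← hB]
  refine Finset.sup_le ?_
  intro m' hm'
  exact (hγm m' hm').trans (Finset.le_sup (f := id) (Finset.mem_image_of_mem γ hm'))

open Finset in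
open Classical in
/-- A small set `Y` such that `[m, 1] \ [z, 1]` is small whenever it is not hit by `Y`,
`(m, z)` in a given set of pairs. -/
theorem exists_Y {L : Type*} [Lattice L] [BoundedOrder L] [Fintype L] (e : ℝ) (t : ℕ)
    (P : Finset (L × L)) (hP : P.Nonempty) (ht : Real.log P.card < e * t) :
    ∃ Y : Finset L, Y.card ≤ t ∧ ∀ m z : L, (m, z) ∈ P → (∀ y ∈ Y, m ≤ y → z ≤ y) →
      (#{y : L | m ≤ y} : ℝ) ≤ (#{y : L | z ≤ y} : ℝ) + e * Fintype.card L := by
  set F : L × L → Finset L := fun p => univ.filter (fun y => p.1 ≤ y ∧ ¬ p.2 ≤ y) with hF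
  set s : Finset (L × L) := P.filter (fun p => e * Fintype.card L ≤ ((F p).card : ℝ)) with hs
  have hP1 : (1 : ℝ) ≤ P.card := by exact_mod_cast hP.card_pos
  have hlog : Real.log s.card < e * t := by
    refine lt_of_le_of_lt ?_ ht
    have h1 : s.card ≤ P.card := Finset.card_le_card (Finset.filter_subset _ _)
    rcases Nat.eq_zero_or_pos s.card with h0 | h0
    · rw [h0]
      simp only [Nat.cast_zero, Real.log_zero]
      exact Real.log_nonneg hP1
    · apply Real.log_le_log
      · exact_mod_cast h0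
      · exact_mod_cast h1
  obtain ⟨Y, hYt, hY⟩ := Pool.Agent.H38.BR.hitting_log F s e
    (fun p hp => (Finset.mem_filter.1 hp).2) t hlog
  refine ⟨Y, hYt, fun m z hmzP hmz => ?_⟩
  have h3 : ((F (m, z)).card : ℝ) < e * Fintype.card L := by
    by_contra hcon
    push Not at hcon
    obtain ⟨y, hyY, hy⟩ := hY (m, z) (Finset.mem_filter.2 ⟨hmzP, hcon⟩)
    simp only [hF, Finset.mem_filter, Finset.mem_univ, true_and] at hy
    exact hy.2 (hmz y hyY hy.1)
  have h4 : #{y : L | m ≤ y} ≤ #{y : L | z ≤ y} + (F (m, z)).card := by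
    refine le_trans (Finset.card_le_card ?_) (Finset.card_union_le _ _)
    intro y hy
    simp only [hF, Finset.mem_union, Finset.mem_filter, Finset.mem_univ, true_and] at hy ⊢
    by_cases h : z ≤ y
    · exact Or.inl h
    · exact Or.inr ⟨hy, h⟩
  have h5 : (#{y : L | m ≤ y} : ℝ) ≤ (#{y : L | z ≤ y} : ℝ) + (F (m, z)).card := by
    exact_mod_cast h4
  linarith

open Finset in
open Classical in
/-- Two levels of classes. -/
theorem two_levels {L : Type*} [Lattice L] [BoundedOrder L] [Fintype L] (b : ℕ) (M : Finset L)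
    (hb : ∀ A ⊆ M, ∃ B ⊆ A, B.card ≤ b ∧ B.sup id = A.sup id) (e e1 : ℝ) (t t1 : ℕ)
    (ht : 2 * Real.log (Fintype.card L) < e * t)
    (ht1 : 2 * Real.log ((((t + 1) ^ b + 1) ^ b : ℕ) : ℝ) < e1 * t1) :
    ∃ g g1 : L → L, (∀ m ∈ M, m ≤ g m) ∧ (∀ m ∈ M, g m ≤ g1 m) ∧
      (∀ m ∈ M, (#{y : L | m ≤ y} : ℝ) ≤ (#{y : L | g m ≤ y} : ℝ) + e * Fintype.card L) ∧
      (∀ m ∈ M, (#{y : L | g m ≤ y} : ℝ) ≤ (#{y : L | g1 m ≤ y} : ℝ) + e1 * Fintype.card L) ∧
      ((univ : Finset L).image (fun x => M.filter (fun m => g m ≤ x))).card ≤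
        ((t + 1) ^ b + 1) ^ b ∧
      ((univ : Finset L).image (fun x => M.filter (fun m => g1 m ≤ x))).card ≤
        ((t1 + 1) ^ b + 1) ^ b ∧
      ∀ x x', (∀ m ∈ M, (g m ≤ x ↔ g m ≤ x')) → ∀ m ∈ M, (g1 m ≤ x ↔ g1 m ≤ x') := by
  have hN1 : (0 : ℝ) < Fintype.card L := by exact_mod_cast Fintype.card_pos
  -- level 1
  obtain ⟨Y, hYt, hY⟩ := exists_Y (L := L) e t univ (Finset.univ_nonempty) (by
    rw [Finset.card_univ, Fintype.card_prod]
    push_cast
    rw [Real.log_mul hN1.ne' hN1.ne']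
    linarith)
  obtain ⟨g, cls, hgA, hg, hgY, hcls, hK⟩ := classes b M hb Y
  have hmono : ∀ {s t : ℕ}, s ≤ t → ((s + 1) ^ b + 1) ^ b ≤ ((t + 1) ^ b + 1) ^ b := by
    intro s t hst
    gcongr
  have hK' : ((univ : Finset L).image cls).card ≤ ((t + 1) ^ b + 1) ^ b := hK.trans (hmono hYt)
  set K : ℕ := ((t + 1) ^ b + 1) ^ b with hKdef
  -- level 2
  set M1 : Finset L := M.image g with hM1
  have hb1 : ∀ A ⊆ M1, ∃ B ⊆ A, B.card ≤ b ∧ B.sup id = A.sup id := by
    refine breadth_joins b M M1 hb ?_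
    intro u hu
    obtain ⟨m, _, rfl⟩ := Finset.mem_image.1 hu
    exact hgA m
  -- a map factoring through `cls` has at most `K` values
  have hfac : ∀ {τ : Type _} [DecidableEq τ] (φ : L → τ), (∀ x x', cls x = cls x' → φ x = φ x') →
      ((univ : Finset L).image φ).card ≤ K := by
    intro τ _ φ hφ
    refine le_trans ?_ hK'
    have hsub : (univ : Finset L).image φ ⊆
        ((univ : Finset L).image cls).image (fun s => if h : ∃ x, cls x = s then φ h.choose
          else φ ⊥) := by
      intro v hv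
      obtain ⟨x, _, rfl⟩ := Finset.mem_image.1 hv
      rw [Finset.mem_image]
      refine ⟨cls x, Finset.mem_image_of_mem _ (Finset.mem_univ x), ?_⟩
      have hex : ∃ x', cls x' = cls x := ⟨x, rfl⟩
      rw [dif_pos hex]
      exact hφ _ _ hex.choose_spec
    exact (Finset.card_le_card hsub).trans Finset.card_image_le
  set ζ : L → L := fun x => (M1.filter (fun u => u ≤ x)).sup id with hζ
  have hfil : ∀ x x', cls x = cls x' → M1.filter (fun u => u ≤ x) = M1.filter (fun u => u ≤ x') := by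
    intro x x' hxx
    refine Finset.filter_congr ?_
    intro u hu
    obtain ⟨m, _, rfl⟩ := Finset.mem_image.1 hu
    exact hcls x x' hxx m
  have hZcard : ((univ : Finset L).image ζ).card ≤ K := hfac ζ (by
    intro x x' hxx
    show (M1.filter (fun u => u ≤ x)).sup id = (M1.filter (fun u => u ≤ x')).sup id
    rw [hfil x x' hxx])
  have hjoin : ∀ A ⊆ M1, A.sup id ∈ (univ : Finset L).image ζ := by
    intro A hA
    rw [Finset.mem_image]
    refine ⟨A.sup id, Finset.mem_univ _, ?_⟩
    apply le_antisymm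
    · refine Finset.sup_le ?_
      intro u hu
      exact (Finset.mem_filter.1 hu).2
    · refine Finset.sup_mono ?_
      intro u hu
      exact Finset.mem_filter.2 ⟨hA hu, Finset.le_sup (f := id) hu⟩
  have hM1Z : ∀ u ∈ M1, u ∈ (univ : Finset L).image ζ := by
    intro u hu
    have := hjoin {u} (Finset.singleton_subset_iff.2 hu)
    simpa using this
  set P : Finset (L × L) := (univ : Finset L).image ζ ×ˢ (univ : Finset L).image ζ with hP
  have hPne : P.Nonempty := by
    rw [hP]
    exact Finset.Nonempty.product (Finset.univ_nonempty.image _) (Finset.univ_nonempty.image _)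
  have hPcard : P.card ≤ K * K := by
    rw [hP, Finset.card_product]
    exact Nat.mul_le_mul hZcard hZcard
  have hKpos : 0 < K := by rw [hKdef]; positivity
  have hKR : (0 : ℝ) < (K : ℝ) := by exact_mod_cast hKpos
  obtain ⟨Y1, hY1t, hY1⟩ := exists_Y (L := L) e1 t1 P hPne (by
    refine lt_of_le_of_lt ?_ ht1
    have h1 : Real.log P.card ≤ Real.log ((K : ℝ) * K) := by
      apply Real.log_le_log
      · exact_mod_cast hPne.card_pos
      · exact_mod_cast hPcard
    rw [Real.log_mul hKR.ne' hKR.ne'] at h1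
    linarith)
  obtain ⟨g2, cls2, hg2A, hg2, hg2Y, hcls2, hK2⟩ := classes b M1 hb1 Y1
  have hK2' : ((univ : Finset L).image cls2).card ≤ ((t1 + 1) ^ b + 1) ^ b :=
    hK2.trans (hmono hY1t)
  refine ⟨g, fun m => g2 (g m), hg, ?_, ?_, ?_, ?_, ?_, ?_⟩
  · intro m hm
    exact hg2 (g m) (Finset.mem_image_of_mem g hm)
  · intro m hm
    exact hY m (g m) (Finset.mem_univ _) (fun y hy hmy => hgY m y hy hmy)
  · intro m hm
    have hu : g m ∈ M1 := Finset.mem_image_of_mem g hm
    refine hY1 (g m) (g2 (g m)) ?_ (fun y hy hmy => hg2Y (g m) y hy hmy)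
    rw [hP, Finset.mem_product]
    refine ⟨hM1Z _ hu, ?_⟩
    obtain ⟨A, hA, hAe⟩ := hg2A (g m)
    rw [hAe]
    exact hjoin A hA
  · refine hfac _ ?_
    intro x x' hxx
    exact Finset.filter_congr fun m _ => hcls x x' hxx m
  · refine le_trans ?_ hK2'
    have hsub : (univ : Finset L).image (fun x => M.filter (fun m => g2 (g m) ≤ x)) ⊆
        ((univ : Finset L).image cls2).image (fun s => if h : ∃ x, cls2 x = s then
          M.filter (fun m => g2 (g m) ≤ h.choose) else ∅) := by
      intro v hv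
      obtain ⟨x, _, rfl⟩ := Finset.mem_image.1 hv
      rw [Finset.mem_image]
      refine ⟨cls2 x, Finset.mem_image_of_mem _ (Finset.mem_univ x), ?_⟩
      have hex : ∃ x', cls2 x' = cls2 x := ⟨x, rfl⟩
      rw [dif_pos hex]
      exact Finset.filter_congr fun m _ => hcls2 _ _ hex.choose_spec (g m)
    exact (Finset.card_le_card hsub).trans Finset.card_image_le
  · intro x x' hxx m hm
    obtain ⟨A, hA, hAe⟩ := hg2A (g m)
    show g2 (g m) ≤ x ↔ g2 (g m) ≤ x'
    rw [hAe, Finset.sup_le_iff, Finset.sup_le_iff]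
    constructor
    · intro h u hu
      obtain ⟨m', hm', rfl⟩ := Finset.mem_image.1 (hA hu)
      exact (hxx m' hm').1 (h _ hu)
    · intro h u hu
      obtain ⟨m', hm', rfl⟩ := Finset.mem_image.1 (hA hu)
      exact (hxx m' hm').2 (h _ hu)

end Pool.Agent.H62.TwoLev
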