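import Pool.Agent.H73.BrCls

/-!
# Few classes when only joins of maximal join-irreducibles have bounded breadth

`Mx` is a finite set of elements of a finite lattice `L` such that every subset `A` of `Mx` has a
subset of at most `b` elements with the same join.  For a set `Y` there is a map `g` with
`m ≤ g m` and `g m ≤ y` for all `y ∈ Y` above `m` (`m ∈ Mx`) such that the sets
`{m ∈ Mx : g m ≤ x}` (`x ∈ L`) are at most `((|Y| + 1) ^ b + 1) ^ b` in number.
-/

namespace Pool.Agent.H62.BrMax

open Classical in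
/-- An intersection of sets `{m ∈ Mx : m ≤ y}` is the intersection of at most `b` of them. -/
theorem few_bounds {L : Type*} [Lattice L] [BoundedOrder L] (b : ℕ) (Mx : Finset L)
    (h : ∀ A ⊆ Mx, ∃ B ⊆ A, B.card ≤ b ∧ B.sup id = A.sup id) (W : Finset L) :
    ∃ W' ⊆ W, W'.card ≤ b ∧ ∀ m ∈ Mx, (∀ y ∈ W', m ≤ y) → ∀ y ∈ W, m ≤ y := by
  obtain ⟨P, hP⟩ : ∃ P : Finset L → Prop,
      ∀ T, P T ↔ ∀ m ∈ Mx, (∀ y ∈ T, m ≤ y) → ∀ y ∈ W, m ≤ y := ⟨_, fun _ => Iff.rfl⟩
  have hne : (W.powerset.filter P).Nonempty :=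
    ⟨W, by
      rw [Finset.mem_filter, Finset.mem_powerset]
      exact ⟨Finset.Subset.refl _, (hP W).2 (fun m _ hmy => hmy)⟩⟩
  obtain ⟨T, hT, hmin⟩ := Finset.exists_min_image _ Finset.card hne
  rw [Finset.mem_filter, Finset.mem_powerset, hP] at hT
  refine ⟨T, hT.1, ?_, hT.2⟩
  by_contra hcard
  push Not at hcard
  have hex : ∀ t ∈ T, ∃ m ∈ Mx, (∀ y ∈ T.erase t, m ≤ y) ∧ ¬ m ≤ t := by
    intro t ht
    by_contra hcon
    push Not at hcon
    have h2 := hmin (T.erase t) (by
      rw [Finset.mem_filter, Finset.mem_powerset, hP]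
      refine ⟨(Finset.erase_subset _ _).trans hT.1, ?_⟩
      intro m hm hmy
      refine hT.2 m hm ?_
      intro y hy
      by_cases hyt : y = t
      · rw [hyt]; exact hcon m hm hmy
      · exact hmy y (Finset.mem_erase.2 ⟨hyt, hy⟩))
    exact absurd (Finset.card_erase_lt_of_mem ht) (not_lt.2 h2)
  choose! s hsM hsy hst using hex
  have hs2 : ∀ t ∈ T, ∀ t' ∈ T, t ≠ t' → s t ≤ t' := by
    intro t ht t' ht' hne
    exact hsy t ht t' (Finset.mem_erase.2 ⟨hne.symm, ht'⟩)
  have hinj : Set.InjOn s (T : Set L) := by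
    intro t ht t' ht' heq
    by_contra hne
    exact hst t ht (heq ▸ hs2 t' ht' t ht (Ne.symm hne))
  obtain ⟨T', hT'1, hT'2, hT'3⟩ := h (T.image s) (by
    intro m hm
    obtain ⟨t, ht, rfl⟩ := Finset.mem_image.1 hm
    exact hsM t ht)
  have hcard2 : T'.card < (T.image s).card := by
    rw [Finset.card_image_of_injOn hinj]
    exact lt_of_le_of_lt hT'2 hcard
  obtain ⟨y, hy, hyT'⟩ := Finset.exists_mem_notMem_of_card_lt_card hcard2
  rw [Finset.mem_image] at hy
  obtain ⟨t, ht, rfl⟩ := hy
  refine hst t ht ?_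
  calc s t ≤ (T.image s).sup id := Finset.le_sup (f := id) (Finset.mem_image_of_mem s ht)
    _ = T'.sup id := hT'3.symm
    _ ≤ t := by
      refine Finset.sup_le fun y hy => ?_
      have := hT'1 hy
      rw [Finset.mem_image] at this
      obtain ⟨t', ht', rfl⟩ := this
      refine hs2 t' ht' t ht ?_
      rintro rfl
      exact hyT' hy

open Classical in
/-- Few classes, in the form needed for the weights. -/
theorem classes {L : Type*} [Lattice L] [BoundedOrder L] [Fintype L] (b : ℕ) (Mx : Finset L)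
    (h : ∀ A ⊆ Mx, ∃ B ⊆ A, B.card ≤ b ∧ B.sup id = A.sup id) (Y : Finset L) :
    ∃ (g cls : L → L),
      (∀ m ∈ Mx, m ≤ g m) ∧
      (∀ m y : L, y ∈ Y → m ≤ y → g m ≤ y) ∧
      (∀ x x', cls x = cls x' → ∀ m : L, (g m ≤ x ↔ g m ≤ x')) ∧
      ((Finset.univ : Finset L).image cls).card ≤ ((Y.card + 1) ^ b + 1) ^ b := by
  set g : L → L := fun m => (Mx.filter (fun m' => ∀ y ∈ Y, m ≤ y → m' ≤ y)).sup id with hg
  set val : (Fin b → L) → L := fun f => (Mx.filter (fun m' => ∀ i, m' ≤ f i)).sup id with hval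
  set G : Finset L := (Fintype.piFinset (fun _ : Fin b => insert ⊤ Y)).image val with hG
  have hgG : ∀ m : L, g m ∈ G := by
    intro m
    obtain ⟨T, hTS, hTb, hT⟩ := few_bounds b Mx h (Y.filter (fun y => m ≤ y))
    rw [hG, Finset.mem_image]
    obtain ⟨f, hf⟩ : ∃ f : Fin b → L, ∀ i, f i =
        if h : i.val < T.card then ((T.equivFin.symm ⟨i.val, h⟩ : T) : L) else ⊤ :=
      ⟨_, fun _ => rfl⟩
    refine ⟨f, ?_, ?_⟩
    · rw [Fintype.mem_piFinset]
      intro i
      rw [hf]
      by_cases h : i.val < T.card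
      · rw [dif_pos h]
        exact Finset.mem_insert_of_mem
          (Finset.filter_subset _ _ (hTS (T.equivFin.symm ⟨i.val, h⟩).2))
      · rw [dif_neg h]
        exact Finset.mem_insert_self _ _
    · have hfe : Mx.filter (fun m' => ∀ i, m' ≤ f i) =
          Mx.filter (fun m' => ∀ y ∈ Y, m ≤ y → m' ≤ y) := by
        ext m'
        simp only [Finset.mem_filter]
        refine and_congr_right fun hm' => ?_
        constructor
        · intro hi y hy hmy
          refine hT m' hm' ?_ y (Finset.mem_filter.2 ⟨hy, hmy⟩)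
          intro t ht
          have hlt : (T.equivFin ⟨t, ht⟩).val < b := lt_of_lt_of_le (T.equivFin ⟨t, ht⟩).2 hTb
          have h1 := hi ⟨(T.equivFin ⟨t, ht⟩).val, hlt⟩
          rw [hf, dif_pos (T.equivFin ⟨t, ht⟩).2] at h1
          simpa using h1
        · intro hy i
          rw [hf]
          by_cases h : i.val < T.card
          · rw [dif_pos h]
            have h1 := hTS (T.equivFin.symm ⟨i.val, h⟩).2
            rw [Finset.mem_filter] at h1
            exact hy _ h1.1 h1.2
          · rw [dif_neg h]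
            exact le_top
      show (Mx.filter (fun m' => ∀ i, m' ≤ f i)).sup id = _
      rw [hfe]
  have hGcard : G.card ≤ (Y.card + 1) ^ b := H73.BrCls.card_aux b Y ⊤ _
  have hGM : ∀ u ∈ G, ∃ A ⊆ Mx, u = A.sup id := by
    intro u hu
    obtain ⟨f, _, rfl⟩ := Finset.mem_image.1 hu
    exact ⟨_, Finset.filter_subset _ _, rfl⟩
  refine ⟨g, fun x => (G.filter (fun u => u ≤ x)).sup id, ?_, ?_, ?_, ?_⟩
  · intro m hm
    exact Finset.le_sup (f := id) (Finset.mem_filter.2 ⟨hm, fun y _ hmy => hmy⟩)
  · intro m y hy hmy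
    refine Finset.sup_le ?_
    intro m' hm'
    exact (Finset.mem_filter.1 hm').2 y hy hmy
  · have key : ∀ x u : L, u ∈ G → (u ≤ x ↔ u ≤ (G.filter (fun u => u ≤ x)).sup id) := by
      intro x u hu
      constructor
      · intro hux
        exact Finset.le_sup (f := id) (Finset.mem_filter.2 ⟨hu, hux⟩)
      · intro hux
        refine hux.trans (Finset.sup_le ?_)
        intro u' hu'
        exact (Finset.mem_filter.1 hu').2
    intro x x' hxx m
    have hxx' : (G.filter (fun u => u ≤ x)).sup id = (G.filter (fun u => u ≤ x')).sup id := hxx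
    rw [key x _ (hgG m), key x' _ (hgG m), hxx']
  · have hsub : (Finset.univ : Finset L).image (fun x => (G.filter (fun u => u ≤ x)).sup id) ⊆
        (Fintype.piFinset (fun _ : Fin b => insert ⊥ G)).image (fun f => Finset.univ.sup f) := by
      intro s hs
      obtain ⟨x, _, rfl⟩ := Finset.mem_image.1 hs
      show (G.filter (fun u => u ≤ x)).sup id ∈ _
      set A : Finset L := Mx.filter (fun m' => ∃ u ∈ G, u ≤ x ∧ m' ≤ u) with hA
      obtain ⟨B, hBA, hBb, hB⟩ := h A (Finset.filter_subset _ _)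
      have hAJ : A.sup id = (G.filter (fun u => u ≤ x)).sup id := by
        apply le_antisymm
        · refine Finset.sup_le ?_
          intro m' hm'
          obtain ⟨_, u, hu, hux, hmu⟩ := Finset.mem_filter.1 hm'
          exact hmu.trans (Finset.le_sup (f := id) (Finset.mem_filter.2 ⟨hu, hux⟩))
        · refine Finset.sup_le ?_
          intro u hu
          rw [Finset.mem_filter] at hu
          obtain ⟨C, hC, rfl⟩ := hGM u hu.1
          refine Finset.sup_mono ?_
          intro m' hm'
          exact Finset.mem_filter.2 ⟨hC hm', _, hu.1, hu.2, Finset.le_sup (f := id) hm'⟩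
      have hex : ∀ m' ∈ B, ∃ u ∈ G, u ≤ x ∧ m' ≤ u := fun m' hm' =>
        (Finset.mem_filter.1 (hBA hm')).2
      choose! γ hγG hγx hγm using hex
      have hT1 : B.image γ ⊆ G.filter (fun u => u ≤ x) := by
        intro u hu
        obtain ⟨m', hm', rfl⟩ := Finset.mem_image.1 hu
        exact Finset.mem_filter.2 ⟨hγG m' hm', hγx m' hm'⟩
      have hT2 : (B.image γ).sup id = (G.filter (fun u => u ≤ x)).sup id := by
        apply le_antisymm (Finset.sup_mono hT1)
        rw [← hAJ, ← hB]
        refine Finset.sup_le ?_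
        intro m' hm'
        exact (hγm m' hm').trans (Finset.le_sup (f := id) (Finset.mem_image_of_mem γ hm'))
      rw [← hT2]
      exact H73.BrCls.sup_mem b G (B.image γ) (hT1.trans (Finset.filter_subset _ _))
        (Finset.card_image_le.trans hBb)
    refine (Finset.card_le_card hsub).trans ((H73.BrCls.card_aux b G ⊥ _).trans ?_)
    exact Nat.pow_le_pow_left (Nat.succ_le_succ hGcard) b

end Pool.Agent.H62.BrMax
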